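import Pool.Agent.L7h4.SF.Stm

/-! Project SF, part VDM. -/

set_option autoImplicit false

namespace Pool.Agent.L7h9.SF

open Matrix Pool.Agent.L7h4.SF

theorem s_VDM : S_VDM := by
  intro n b hb j
  have hdet : (Matrix.vandermonde b).det ≠ 0 := Matrix.det_vandermonde_ne_zero_iff.mpr hb
  have hu : IsUnit (Matrix.vandermonde b).det := hdet.isUnit
  refine ⟨(Matrix.vandermonde b)⁻¹ *ᵥ Pi.single j 1, fun i => ?_⟩
  have h : Matrix.vandermonde b *ᵥ ((Matrix.vandermonde b)⁻¹ *ᵥ Pi.single j 1) =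
      Pi.single j 1 := by
    rw [Matrix.mulVec_mulVec, Matrix.mul_nonsing_inv _ hu, Matrix.one_mulVec]
  have h2 := congrFun h i
  rw [Pi.single_apply] at h2
  rw [← h2]
  conv_rhs => rw [Matrix.mulVec, dotProduct]
  refine Finset.sum_congr rfl fun k _ => ?_
  rw [Matrix.vandermonde_apply, mul_comm]

end Pool.Agent.L7h9.SF
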